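import Pool.Agent.Helper88_SA.StmtN

/-! Module SIMA of squad SA: interval simulation of the greedy flow for the first 1525 steps,
by kernel evaluation of an integer program (fixed point, scale 2 ^ 240). -/

namespace SA.H13

/-! ### the integer program -/

def nth : List ℕ → ℕ → ℕ
  | [], _ => 0
  | a :: _, 0 => a
  | _ :: l, j + 1 => nth l j

def ins : ℕ → ℕ → List ℕ → List ℕ
  | 0, b, l => b :: l
  | _ + 1, b, [] => [b]
  | k + 1, b, a :: l => a :: ins k b l

def sumk : ℕ → List ℕ → ℕ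
  | 0, _ => 0
  | _ + 1, [] => 0
  | k + 1, a :: l => a + sumk k l

def X : ℕ := 2 ^ 240
def Y : ℕ := 2 ^ 200

def run : List ℕ → List ℕ → List ℕ → ℕ → ℕ → ℕ → ℕ → Bool
  | [], _, _, _, _, _, _ => true
  | k :: ks, hl, hh, sl, sh, el, eh =>
    let bl := (el + (sl - sumk k hl)) / (56 - k)
    let bh := (eh + (sh - sumk k hh)) / (56 - k) + 1
    let sl' := sl - nth hl 55 + bl
    let sh' := sh - nth hh 55 + bh
    let d := (56 * X - sl') * Y / Tm + 1
    let d' := (56 * X - sh') * Y / (Tm + 1)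
    Nat.ble k 55 && (Nat.ble (nth hh k) bl && ((Nat.ble k 0 || Nat.ble (bh + 1) (nth hl (k - 1))) &&
      (Nat.ble sh' (56 * X) && (Nat.ble d el &&
        run ks (ins k bl hl) (ins k bh hh) sl' sh' (el - d) (eh - d')))))

def ksl : List ℕ := kap0list ++ List.replicate 1354 0
def z56 : List ℕ := List.replicate 56 0

set_option maxRecDepth 100000 in
theorem run_true : run ksl z56 z56 0 0 (56 * X - (56 * X * Y / Tm + 1))
    (56 * X - 56 * X * Y / (Tm + 1)) = true := by
  decide +kernel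


/-! ### lists -/

theorem nth_ins : ∀ (k : ℕ) (b : ℕ) (l : List ℕ) (j : ℕ), k ≤ l.length →
    nth (ins k b l) j = if j < k then nth l j else if j = k then b else nth l (j - 1)
  | 0, b, l, 0, _ => by simp [ins, nth]
  | 0, b, l, j + 1, _ => by simp [ins, nth]
  | k + 1, b, [], j, h => by simp at h
  | k + 1, b, a :: l, 0, h => by simp [ins, nth]
  | k + 1, b, a :: l, j + 1, h => by
      have ih := nth_ins k b l j (by simpa using h)
      simp only [ins, nth, ih, Nat.add_lt_add_iff_right, Nat.add_right_cancel_iff, Nat.add_sub_cancel]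
      by_cases h1 : j < k
      · simp [h1]
      · by_cases h2 : j = k
        · simp [h2]
        · have h3 : 1 ≤ j := by omega
          obtain ⟨i, rfl⟩ := Nat.exists_eq_add_of_le' h3
          simp [h1, h2, nth]

theorem length_ins : ∀ (k : ℕ) (b : ℕ) (l : List ℕ), (ins k b l).length = l.length + 1
  | 0, b, l => by simp [ins]
  | k + 1, b, [] => by simp [ins]
  | k + 1, b, a :: l => by simp [ins, length_ins k b l]

theorem sumk_eq : ∀ (k : ℕ) (l : List ℕ), sumk k l = ∑ j ∈ Finset.range k, nth l j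
  | 0, l => by simp [sumk]
  | k + 1, [] => by simp [sumk, nth]
  | k + 1, a :: l => by
      rw [sumk, sumk_eq k l, Finset.sum_range_succ']
      simp [nth, Nat.add_comm]

theorem sum_ins (k b : ℕ) (l : List ℕ) (hk : k ≤ 55) (hl : 56 ≤ l.length) :
    sumk 56 (ins k b l) + nth l 55 = sumk 56 l + b := by
  have key : ∀ (m k : ℕ) (l : List ℕ), k ≤ m → k ≤ l.length →
      sumk (m + 1) (ins k b l) = sumk m l + b := by
    intro m
    induction m with
    | zero => 
      intro k l h1 h2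
      have : k = 0 := by omega
      subst this
      simp [ins, sumk]
    | succ m ih =>
      intro k l h1 h2
      cases k with
      | zero => simp [ins, sumk, Nat.add_comm]
      | succ k =>
        cases l with
        | nil => simp at h2
        | cons a l =>
          have := ih k l (by omega) (by simpa using h2)
          simp only [ins, sumk] at this ⊢
          rw [this]; omega
  rw [key 55 k l hk (by omega)]
  have : sumk 56 l = sumk 55 l + nth l 55 := by
    rw [sumk_eq, sumk_eq, Finset.sum_range_succ]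
  omega

/-! ### the barrier from the threshold -/

section bar
variable (s : St) (k : ℕ) (β : ℝ)

theorem barrier_eq (hk : k ≤ 55) (hs : ∀ i j, i ≤ j → j < 56 → s.Q j ≤ s.Q i)
    (hβ : (56 - (k : ℝ)) * β = s.E + ∑ j ∈ Finset.Ico k 56, s.Q j)
    (h1 : ∀ j, j < k → β < s.Q j) (h2 : s.Q k ≤ β) : s.B = β := by
  have hk' : (k : ℝ) ≤ 55 := by exact_mod_cast hk
  apply le_antisymm
  · refine (Finset.inf'_le _ (Finset.mem_range.2 (show k < 56 by omega))).trans ?_
    rw [div_le_iff₀ (by linarith)]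
    linarith
  · refine Finset.le_inf' _ _ ?_
    intro i hi
    have hi' : i < 56 := Finset.mem_range.1 hi
    have hi'' : (i : ℝ) ≤ 55 := by exact_mod_cast (show i ≤ 55 by omega)
    rw [le_div_iff₀ (by linarith)]
    rcases le_or_gt i k with h | h
    · have e := Finset.sum_Ico_consecutive s.Q h (show k ≤ 56 by omega)
      have g : ((k : ℝ) - i) * β ≤ ∑ j ∈ Finset.Ico i k, s.Q j := by
        have := Finset.card_nsmul_le_sum (Finset.Ico i k) s.Q β (fun j hj =>
          (h1 j (Finset.mem_Ico.1 hj).2).le)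
        rw [Nat.card_Ico, nsmul_eq_mul, Nat.cast_sub h] at this
        exact this
      nlinarith
    · have e := Finset.sum_Ico_consecutive s.Q h.le (show i ≤ 56 by omega)
      have g : ∑ j ∈ Finset.Ico k i, s.Q j ≤ ((i : ℝ) - k) * β := by
        have := Finset.sum_le_card_nsmul (Finset.Ico k i) s.Q β (fun j hj =>
          (hs k j (Finset.mem_Ico.1 hj).1 ((Finset.mem_Ico.1 hj).2.trans hi')).trans h2)
        rw [Nat.card_Ico, nsmul_eq_mul, Nat.cast_sub h.le] at this
        exact this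
      nlinarith

theorem kap_eq (hk : k ≤ 55) (hs : ∀ i j, i ≤ j → j < 56 → s.Q j ≤ s.Q i)
    (h1 : ∀ j, j < k → s.B < s.Q j) (h2 : s.Q k ≤ s.B) :
    ((Finset.range 56).filter (fun j => s.B < s.Q j)).card = k := by
  have : (Finset.range 56).filter (fun j => s.B < s.Q j) = Finset.range k := by
    ext j
    simp only [Finset.mem_filter, Finset.mem_range]
    constructor
    · rintro ⟨a, b⟩
      by_contra h
      exact absurd (lt_of_lt_of_le b ((hs k j (by omega) a).trans h2)) (lt_irrefl _)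
    · intro h
      exact ⟨by omega, h1 j h⟩
  rw [this, Finset.card_range]

theorem ins_eq (hk : k ≤ 55) (hs : ∀ i j, i ≤ j → j < 56 → s.Q j ≤ s.Q i)
    (h1 : ∀ j, j < k → s.B < s.Q j) (h2 : s.Q k ≤ s.B) (j : ℕ) (hj : j < 56) :
    s.ins j = if j < k then s.Q j else if j = k then s.B else s.Q (j - 1) := by
  unfold St.ins
  rcases Nat.eq_zero_or_pos j with rfl | hj0
  · rw [if_pos rfl]
    rcases Nat.eq_zero_or_pos k with rfl | hk0
    · simp [h2]
    · rw [if_pos hk0, max_eq_left (h1 0 hk0).le]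
  · rw [if_neg (by omega), if_pos hj]
    rcases lt_trichotomy j k with h | h | h
    · rw [if_pos h, max_eq_left]
      exact (min_le_right _ _).trans (h1 j h).le
    · subst h
      rw [if_neg (lt_irrefl _), if_pos rfl, min_eq_right (h1 (j - 1) (by omega)).le, max_eq_right h2]
    · rw [if_neg (by omega), if_neg (by omega)]
      have a : s.Q (j - 1) ≤ s.B := (hs k (j - 1) (by omega) (by omega)).trans h2
      rw [min_eq_left a, max_eq_right (hs (j - 1) j (by omega) hj)]

end bar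

/-! ### the invariant -/

structure Inv (T : ℝ) (n : ℕ) (hl hh : List ℕ) (sl sh el eh : ℕ) : Prop where
  ll : 56 ≤ hl.length
  lh : 56 ≤ hh.length
  ql : ∀ j, j < 56 → (nth hl j : ℝ) ≤ X * (gr T n).Q j
  qh : ∀ j, j < 56 → X * (gr T n).Q j ≤ (nth hh j : ℝ)
  sl : sl = sumk 56 hl
  sh : sh = sumk 56 hh
  el : (el : ℝ) ≤ X * (gr T n).E
  eh : X * (gr T n).E ≤ (eh : ℝ)
  srt : ∀ i j, i ≤ j → j < 56 → (gr T n).Q j ≤ (gr T n).Q i

theorem X_pos : (0 : ℝ) < (X : ℝ) := by
  exact_mod_cast (show 0 < X by unfold X; positivity)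

theorem div_bounds (T : ℝ) (h1 : Tlo ≤ T) (h2 : T ≤ Thi) (r : ℝ) (a b : ℕ) (ha : (a : ℝ) ≤ r)
    (hb : r ≤ (b : ℝ)) : r / T ≤ ((b * Y / Tm + 1 : ℕ) : ℝ) ∧ ((a * Y / (Tm + 1) : ℕ) : ℝ) ≤ r / T := by
  have hY : (Y : ℝ) = 2 ^ 200 := by unfold Y; norm_num
  have hTm : (0 : ℝ) < (Tm : ℝ) := by exact_mod_cast (show 0 < Tm by unfold Tm; norm_num)
  have hT1 : (Tm : ℝ) ≤ T * Y := by
    rw [hY]; unfold Tlo at h1
    rwa [div_le_iff₀ (by positivity)] at h1
  have hT2 : T * Y ≤ (Tm : ℝ) + 1 := by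
    rw [hY]; unfold Thi at h2
    rwa [le_div_iff₀ (by positivity)] at h2
  have hYp : (0 : ℝ) < Y := by rw [hY]; positivity
  have hT : 0 < T := by
    by_contra h
    have : T * Y ≤ 0 := mul_nonpos_of_nonpos_of_nonneg (not_lt.1 h) hYp.le
    linarith
  constructor
  · rw [div_le_iff₀ hT]
    have h3 : ((b * Y : ℕ) : ℝ) ≤ ((b * Y / Tm + 1 : ℕ) : ℝ) * Tm := by
      have : b * Y ≤ (b * Y / Tm + 1) * Tm := by
        have := Nat.lt_mul_div_succ (b * Y) (show 0 < Tm by unfold Tm; norm_num)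
        rw [Nat.mul_comm (b * Y / Tm + 1)]; exact this.le
      exact_mod_cast this
    have h4 : ((b * Y / Tm + 1 : ℕ) : ℝ) * Tm ≤ ((b * Y / Tm + 1 : ℕ) : ℝ) * (T * Y) :=
      mul_le_mul_of_nonneg_left hT1 (Nat.cast_nonneg _)
    have h5 : r * Y ≤ ((b * Y / Tm + 1 : ℕ) : ℝ) * T * Y := by
      have : r * Y ≤ (b : ℝ) * Y := mul_le_mul_of_nonneg_right hb hYp.le
      push_cast at h3 h4 ⊢
      nlinarith
    exact le_of_mul_le_mul_right h5 hYp
  · rw [le_div_iff₀ hT]
    have h3 : ((a * Y / (Tm + 1) : ℕ) : ℝ) * ((Tm : ℝ) + 1) ≤ ((a * Y : ℕ) : ℝ) := by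
      have := Nat.div_mul_le_self (a * Y) (Tm + 1)
      exact_mod_cast this
    have h4 : ((a * Y / (Tm + 1) : ℕ) : ℝ) * (T * Y) ≤ ((a * Y / (Tm + 1) : ℕ) : ℝ) * ((Tm : ℝ) + 1) :=
      mul_le_mul_of_nonneg_left hT2 (Nat.cast_nonneg _)
    have h5 : ((a * Y / (Tm + 1) : ℕ) : ℝ) * T * Y ≤ r * Y := by
      have : (a : ℝ) * Y ≤ r * Y := mul_le_mul_of_nonneg_right ha hYp.le
      push_cast at h3 h4 ⊢
      nlinarith
    exact le_of_mul_le_mul_right h5 hYp

theorem step (T : ℝ) (h1 : Tlo ≤ T) (h2 : T ≤ Thi) (n k : ℕ) (hl hh : List ℕ) (sl sh el eh : ℕ)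
    (I : Inv T n hl hh sl sh el eh) (bl bh sl' sh' d d' : ℕ)
    (hbl : bl = (el + (sl - sumk k hl)) / (56 - k))
    (hbh : bh = (eh + (sh - sumk k hh)) / (56 - k) + 1)
    (hsl : sl' = sl - nth hl 55 + bl) (hsh : sh' = sh - nth hh 55 + bh)
    (hd : d = (56 * X - sl') * Y / Tm + 1) (hd' : d' = (56 * X - sh') * Y / (Tm + 1))
    (c1 : k ≤ 55) (c2 : nth hh k ≤ bl) (c3 : k ≤ 0 ∨ bh + 1 ≤ nth hl (k - 1))
    (c4 : sh' ≤ 56 * X) (c5 : d ≤ el) :
    Valid T n ∧ kap T n = k ∧
      Inv T (n + 1) (ins k bl hl) (ins k bh hh) sl' sh' (el - d) (eh - d') := by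
  obtain ⟨i1, i2, i3, i4, i5, i6, i7, i8, i9⟩ := I
  have hX := X_pos
  have hk' : (k : ℝ) ≤ 55 := by exact_mod_cast c1
  have hkk : ((56 - k : ℕ) : ℝ) = 56 - (k : ℝ) := by
    rw [Nat.cast_sub (by omega)]; norm_num
  have hkpos : (0 : ℝ) < 56 - (k : ℝ) := by linarith
  -- sums over Ico
  have split : ∀ l : List ℕ, ((sumk 56 l - sumk k l : ℕ) : ℝ) = ∑ j ∈ Finset.Ico k 56, (nth l j : ℝ) := by
    intro l
    have e := Finset.sum_range_add_sum_Ico (nth l) (show k ≤ 56 by omega)
    rw [sumk_eq, sumk_eq, ← e, Nat.add_sub_cancel_left]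
    push_cast; rfl
  set β : ℝ := ((gr T n).E + ∑ j ∈ Finset.Ico k 56, (gr T n).Q j) / (56 - (k : ℝ)) with hβ
  have hβ' : (56 - (k : ℝ)) * β = (gr T n).E + ∑ j ∈ Finset.Ico k 56, (gr T n).Q j := by
    rw [hβ]; field_simp
  have sumXl : ∑ j ∈ Finset.Ico k 56, (nth hl j : ℝ) ≤ X * ∑ j ∈ Finset.Ico k 56, (gr T n).Q j := by
    rw [Finset.mul_sum]
    exact Finset.sum_le_sum (fun j hj => i3 j (Finset.mem_Ico.1 hj).2)
  have sumXh : X * ∑ j ∈ Finset.Ico k 56, (gr T n).Q j ≤ ∑ j ∈ Finset.Ico k 56, (nth hh j : ℝ) := by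
    rw [Finset.mul_sum]
    exact Finset.sum_le_sum (fun j hj => i4 j (Finset.mem_Ico.1 hj).2)
  have hbl' : (bl : ℝ) ≤ X * β := by
    have a : ((bl * (56 - k) : ℕ) : ℝ) ≤ ((el + (sl - sumk k hl) : ℕ) : ℝ) := by
      exact_mod_cast (show bl * (56 - k) ≤ el + (sl - sumk k hl) by rw [hbl]; exact Nat.div_mul_le_self _ _)
    have b : (((el + (sl - sumk k hl) : ℕ)) : ℝ) ≤ (56 - (k : ℝ)) * (X * β) := by
      rw [i5]; push_cast [split]
      calc _ ≤ X * (gr T n).E + X * ∑ j ∈ Finset.Ico k 56, (gr T n).Q j := add_le_add i7 sumXl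
        _ = _ := by rw [← mul_add, ← hβ']; ring
    rw [Nat.cast_mul, hkk] at a
    by_contra hcon
    have := mul_lt_mul_of_pos_left (not_le.1 hcon) hkpos
    linarith
  have hbh' : X * β ≤ (bh : ℝ) := by
    have a : (((eh + (sh - sumk k hh) : ℕ)) : ℝ) ≤ ((bh * (56 - k) : ℕ) : ℝ) := by
      have := Nat.lt_mul_div_succ (eh + (sh - sumk k hh)) (show 0 < 56 - k by omega)
      exact_mod_cast (show eh + (sh - sumk k hh) ≤ bh * (56 - k) by rw [hbh, Nat.mul_comm]; exact this.le)
    have b : (56 - (k : ℝ)) * (X * β) ≤ (((eh + (sh - sumk k hh) : ℕ)) : ℝ) := by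
      rw [i6]; push_cast [split]
      calc (56 - (k : ℝ)) * (X * β) = X * (gr T n).E + X * ∑ j ∈ Finset.Ico k 56, (gr T n).Q j := by
            rw [← mul_add, ← hβ']; ring
        _ ≤ _ := add_le_add i8 sumXh
    rw [Nat.cast_mul, hkk] at a
    by_contra hcon
    have := mul_lt_mul_of_pos_left (not_le.1 hcon) hkpos
    linarith
  have e1 : ∀ j, j < k → β < (gr T n).Q j := by
    intro j hj
    rcases c3 with h | h
    · omega
    · have a : (bh : ℝ) + 1 ≤ (nth hl (k - 1) : ℝ) := by exact_mod_cast h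
      have b := i3 (k - 1) (by omega)
      have c := i9 j (k - 1) (by omega) (by omega)
      have : X * β < X * (gr T n).Q (k - 1) := by linarith
      exact lt_of_lt_of_le (lt_of_mul_lt_mul_left this hX.le) c
  have e2 : (gr T n).Q k ≤ β := by
    have a : (nth hh k : ℝ) ≤ (bl : ℝ) := by exact_mod_cast c2
    have b := i4 k (by omega)
    exact le_of_mul_le_mul_left (b.trans (a.trans hbl')) hX
  have eB : (gr T n).B = β := barrier_eq _ k β c1 i9 hβ' e1 e2
  have e1' : ∀ j, j < k → (gr T n).B < (gr T n).Q j := by rw [eB]; exact e1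
  have e2' : (gr T n).Q k ≤ (gr T n).B := by rw [eB]; exact e2
  have eQ : ∀ j, j < 56 → (gr T (n + 1)).Q j =
      if j < k then (gr T n).Q j else if j = k then β else (gr T n).Q (j - 1) := by
    intro j hj
    have := ins_eq (gr T n) k c1 i9 e1' e2' j hj
    rw [eB] at this
    exact this
  have ql' : ∀ j, j < 56 → (nth (ins k bl hl) j : ℝ) ≤ X * (gr T (n + 1)).Q j := by
    intro j hj
    rw [eQ j hj, nth_ins k bl hl j (by omega)]
    by_cases hjk : j < k
    · rw [if_pos hjk, if_pos hjk]; exact i3 j hj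
    · rw [if_neg hjk, if_neg hjk]
      by_cases hjk' : j = k
      · rw [if_pos hjk', if_pos hjk']; exact hbl'
      · rw [if_neg hjk', if_neg hjk']; exact i3 (j - 1) (by omega)
  have qh' : ∀ j, j < 56 → X * (gr T (n + 1)).Q j ≤ (nth (ins k bh hh) j : ℝ) := by
    intro j hj
    rw [eQ j hj, nth_ins k bh hh j (by omega)]
    by_cases hjk : j < k
    · rw [if_pos hjk, if_pos hjk]; exact i4 j hj
    · rw [if_neg hjk, if_neg hjk]
      by_cases hjk' : j = k
      · rw [if_pos hjk', if_pos hjk']; exact hbh'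
      · rw [if_neg hjk', if_neg hjk']; exact i4 (j - 1) (by omega)
  have sl'' : sl' = sumk 56 (ins k bl hl) := by
    have a := sum_ins k bl hl c1 i1
    have b : sumk 56 hl = sumk 55 hl + nth hl 55 := by
      rw [sumk_eq, sumk_eq, Finset.sum_range_succ]
    omega
  have sh'' : sh' = sumk 56 (ins k bh hh) := by
    have a := sum_ins k bh hh c1 i2
    have b : sumk 56 hh = sumk 55 hh + nth hh 55 := by
      rw [sumk_eq, sumk_eq, Finset.sum_range_succ]
    omega
  have sumQl : (sl' : ℝ) ≤ X * ∑ j ∈ Finset.range 56, (gr T (n + 1)).Q j := by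
    rw [sl'', sumk_eq, Finset.mul_sum]; push_cast
    exact Finset.sum_le_sum (fun j hj => ql' j (Finset.mem_range.1 hj))
  have sumQh : X * ∑ j ∈ Finset.range 56, (gr T (n + 1)).Q j ≤ (sh' : ℝ) := by
    rw [sh'', sumk_eq, Finset.mul_sum]; push_cast
    exact Finset.sum_le_sum (fun j hj => qh' j (Finset.mem_range.1 hj))
  have hE : (gr T (n + 1)).E = (gr T n).E - (56 - ∑ j ∈ Finset.range 56, (gr T (n + 1)).Q j) / T := rfl
  have c4' : (sh' : ℝ) ≤ 56 * X := by exact_mod_cast c4
  have hsl56 : (sl' : ℝ) ≤ 56 * X := sumQl.trans (sumQh.trans c4')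
  have hsl56' : sl' ≤ 56 * X := by exact_mod_cast hsl56
  obtain ⟨r1, r2⟩ := div_bounds T h1 h2
    (X * (56 - ∑ j ∈ Finset.range 56, (gr T (n + 1)).Q j)) (56 * X - sh') (56 * X - sl')
    (by rw [Nat.cast_sub c4]; push_cast; linarith) (by rw [Nat.cast_sub hsl56']; push_cast; linarith)
  rw [← hd] at r1
  rw [← hd'] at r2
  have hE' : X * (gr T (n + 1)).E = X * (gr T n).E
      - X * (56 - ∑ j ∈ Finset.range 56, (gr T (n + 1)).Q j) / T := by
    rw [hE]; ring
  refine ⟨?_, ?_, ?_⟩
  · exact (i9 k 55 c1 (by norm_num)).trans e2'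
  · exact kap_eq (gr T n) k c1 i9 e1' e2'
  · refine ⟨by rw [length_ins]; omega, by rw [length_ins]; omega, ql', qh', sl'', sh'', ?_, ?_, ?_⟩
    · rw [Nat.cast_sub c5, hE']; linarith
    · have : (eh : ℝ) - d' ≤ ((eh - d' : ℕ) : ℝ) := by
        rw [sub_le_iff_le_add]
        exact_mod_cast (show eh ≤ (eh - d') + d' by omega)
      rw [hE']; linarith
    · intro i j hij hj
      rw [eQ i (by omega), eQ j hj]
      by_cases a1 : j < k
      · rw [if_pos a1, if_pos (by omega)]; exact i9 i j hij hj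
      · rw [if_neg a1]
        by_cases a2 : j = k
        · rw [if_pos a2]
          by_cases a3 : i < k
          · rw [if_pos a3]; exact (e1 i a3).le
          · rw [if_neg a3, if_pos (by omega)]
        · rw [if_neg a2]
          by_cases a3 : i < k
          · rw [if_pos a3]; exact i9 i (j - 1) (by omega) (by omega)
          · rw [if_neg a3]
            by_cases a4 : i = k
            · rw [if_pos a4]; exact (i9 k (j - 1) (by omega) (by omega)).trans e2
            · rw [if_neg a4]; exact i9 (i - 1) (j - 1) (by omega) (by omega)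

theorem run_spec (T : ℝ) (h1 : Tlo ≤ T) (h2 : T ≤ Thi) : ∀ (ks : List ℕ) (n : ℕ) (hl hh : List ℕ)
    (sl sh el eh : ℕ), Inv T n hl hh sl sh el eh → run ks hl hh sl sh el eh = true →
    ∀ i, i < ks.length → Valid T (n + i) ∧ kap T (n + i) = ks.getD i 0
  | [], _, _, _, _, _, _, _, _, _, i, hi => by simp at hi
  | k :: ks, n, hl, hh, sl, sh, el, eh, I, hr, i, hi => by
      simp only [run, Bool.and_eq_true, Bool.or_eq_true, Nat.ble_eq] at hr
      obtain ⟨c1, c2, c3, c4, c5, c6⟩ := hr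
      obtain ⟨v, q, I'⟩ := step T h1 h2 n k hl hh sl sh el eh I _ _ _ _ _ _ rfl rfl rfl rfl rfl rfl
        c1 c2 c3 c4 c5
      cases i with
      | zero => exact ⟨v, by simpa using q⟩
      | succ i =>
        have := run_spec T h1 h2 ks (n + 1) _ _ _ _ _ _ I' c6 i (by simpa using hi)
        rw [show n + (i + 1) = n + 1 + i by omega]
        simpa using this

theorem inv_zero (T : ℝ) (h1 : Tlo ≤ T) (h2 : T ≤ Thi) :
    Inv T 0 z56 z56 0 0 (56 * X - (56 * X * Y / Tm + 1)) (56 * X - 56 * X * Y / (Tm + 1)) := by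
  have hz : ∀ j, nth z56 j = 0 := by
    intro j
    unfold z56
    generalize 56 = m
    induction m generalizing j with
    | zero => simp [nth]
    | succ m ih =>
      cases j with
      | zero => simp [nth, List.replicate_succ]
      | succ j => simp [nth, List.replicate_succ, ih]
  have hs : sumk 56 z56 = 0 := by rw [sumk_eq]; simp [hz]
  have hQ : ∀ j, (gr T 0).Q j = 0 := fun _ => rfl
  have hE : (gr T 0).E = 56 - 56 / T := rfl
  obtain ⟨r1, r2⟩ := div_bounds T h1 h2 (X * 56) (56 * X) (56 * X) (by push_cast; linarith)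
    (by push_cast; linarith)
  have hE' : (X : ℝ) * (gr T 0).E = ((56 * X : ℕ) : ℝ) - X * 56 / T := by
    rw [hE]; push_cast; ring
  refine ⟨by simp [z56], by simp [z56], ?_, ?_, hs.symm, hs.symm, ?_, ?_, ?_⟩
  · intro j _; rw [hz, hQ]; simp
  · intro j _; rw [hz, hQ]; simp
  · rw [hE', Nat.cast_sub]
    · linarith
    · unfold X Y Tm; norm_num
  · rw [hE', Nat.cast_sub]
    · linarith
    · unfold X Y Tm; norm_num
  · intro i j _ _; rw [hQ, hQ]

theorem simA : SimAStmt := by
  intro T h1 h2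
  have hlen : ksl.length = 1525 := by
    unfold ksl; rw [List.length_append, List.length_replicate]; rfl
  have h171 : kap0list.length = 171 := rfl
  have main := run_spec T h1 h2 ksl 0 _ _ _ _ _ _ (inv_zero T h1 h2) run_true
  rw [hlen] at main
  refine ⟨fun n hn => ?_, fun n hn => ?_, fun n h hn => ?_⟩
  · have := (main n hn).1
    rwa [Nat.zero_add] at this
  · have := (main n (by omega)).2
    rw [Nat.zero_add] at this
    rw [this]
    unfold ksl kap0
    rw [List.getD_append _ _ _ _ (by rw [h171]; exact hn)]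
  · have := (main n hn).2
    rw [Nat.zero_add] at this
    rw [this]
    unfold ksl
    rw [List.getD_append_right _ _ _ _ (by rw [h171]; exact h), h171]
    rw [List.getD_eq_getElem?_getD, List.getElem?_replicate, if_pos (by omega)]
    rfl

end SA.H13
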