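import Pool.Agent.Helper88_SA.StmtA

/-! Module WFORM of squad SA. -/

namespace SA.H13

theorem T_ne (T : ℝ) (h : Tlo ≤ T) : T ≠ 0 := by
  have hlo : (0 : ℝ) < Tlo := by
    unfold Tlo
    have : (0 : ℝ) < (Tm : ℝ) := by exact_mod_cast (show 0 < Tm by unfold Tm; norm_num)
    positivity
  exact (hlo.trans_le h).ne'

/-- the modes and the rest functional together give the linear functional of W -/
theorem base (T x0 z : ℝ) (th : ℂ) (n : ℕ) :
    Cn T x0 n + (Zn T th n).re + zn T z n + bval T (brest0 T x0 z th) n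
      = ((gr T n).E - ∑ d ∈ Finset.Icc (1 : ℕ) 55, (56 - (d : ℝ)) * Nd T n d) / 56 := by
  have hZ : (Zn T th n).re = ∑ d ∈ Finset.Icc (1 : ℕ) 55, Nd T n d * (a2c * gam (T : ℂ) th (56 - d)).re
      - ((gr T n).R * (a2c * (1 / (th - 1) + 1 / (th - 1) ^ 2)).re
        + (gr T n).E * (a2c * T / (th - 1)).re) := by
    have : Zn T th n = ∑ d ∈ Finset.Icc (1 : ℕ) 55, ((Nd T n d : ℝ) : ℂ) * (a2c * gam (T : ℂ) th (56 - d))
      - (((gr T n).R : ℂ) * (a2c * (1 / (th - 1) + 1 / (th - 1) ^ 2))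
        + ((gr T n).E : ℂ) * (a2c * T / (th - 1))) := by
      unfold Zn PhiC
      have e : ∑ d ∈ Finset.Icc (1 : ℕ) 55, ((Nd T n d : ℝ) : ℂ) * (a2c * gam (T : ℂ) th (56 - d))
          = a2c * ∑ d ∈ Finset.Icc (1 : ℕ) 55, ((Nd T n d : ℝ) : ℂ) * gam (T : ℂ) th (56 - d) := by
        rw [Finset.mul_sum]
        exact Finset.sum_congr rfl (fun d _ => by ring)
      rw [e]
      push_cast
      ring
    rw [this, Complex.sub_re, Complex.re_sum, Complex.add_re, Complex.re_ofReal_mul,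
      Complex.re_ofReal_mul]
    congr 1
    exact Finset.sum_congr rfl (fun d _ => Complex.re_ofReal_mul _ _)
  have hr : ∑ d ∈ Finset.Icc (1 : ℕ) 55, (brest0 T x0 z th).r (56 - d) * Nd T n d
      = - (∑ d ∈ Finset.Icc (1 : ℕ) 55, (56 - (d : ℝ)) * Nd T n d) / 56
        - a0c * ∑ d ∈ Finset.Icc (1 : ℕ) 55, Nd T n d * gam T x0 (56 - d)
        - azc * ∑ d ∈ Finset.Icc (1 : ℕ) 55, Nd T n d * gam T z (56 - d)
        - ∑ d ∈ Finset.Icc (1 : ℕ) 55, Nd T n d * (a2c * gam (T : ℂ) th (56 - d)).re := by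
    rw [Finset.mul_sum, Finset.mul_sum, ← Finset.sum_neg_distrib, Finset.sum_div,
      ← Finset.sum_sub_distrib, ← Finset.sum_sub_distrib, ← Finset.sum_sub_distrib]
    refine Finset.sum_congr rfl (fun d hd => ?_)
    obtain ⟨h1, h2⟩ := Finset.mem_Icc.1 hd
    have h3 : 56 - d ≠ 0 := by omega
    have h4 : ((56 - d : ℕ) : ℝ) = 56 - (d : ℝ) := by
      rw [Nat.cast_sub (by omega)]; norm_num
    simp only [brest0, if_neg h3, h4]
    ring
  unfold bval
  rw [hr, hZ]
  unfold Cn zn PhiR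
  simp only [brest0]
  ring

theorem iter (hR : RestStepStmt) (T : ℝ) (hT : T ≠ 0) (b : BV) (n : ℕ) (hV : ∀ m, m < n → Valid T m) :
    ∀ L, L ≤ n → bval T b n = bval T ((badj T)^[L] b) (n - L)
      + ∑ l ∈ Finset.range L, ∑ d ∈ Finset.Icc (1 : ℕ) 55,
        pd T (n - 1 - l) d * (((badj T)^[l] b).r (56 - d) - ((badj T)^[l + 1] b).r (56 - d)) := by
  intro L
  induction L with
  | zero => intro _; simp
  | succ L ih =>
    intro hL
    rw [ih (by omega), Finset.sum_range_succ]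
    have e : n - L = (n - (L + 1)) + 1 := by omega
    have e' : n - 1 - L = n - (L + 1) := by omega
    have h := hR T ((badj T)^[L] b) (n - (L + 1)) hT (fun m hm => hV m (by omega))
    rw [e, h, e', ← Function.iterate_succ_apply' (badj T) L b]
    ring

theorem wformL (hR : RestStepStmt) (hW : WlinStmt) (T x0 z : ℝ) (th : ℂ) (n L : ℕ)
    (hT : T ≠ 0) (hL : 1 ≤ L) (hn : L + 1 ≤ n) (hV : ∀ m, m < n → Valid T m) :
    Wn T n = Cn T x0 n + (Zn T th n).re + zn T z n + bval T (brest T x0 z th L) (n - L)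
    + ∑ l ∈ Finset.range L, ∑ d ∈ Finset.Icc (1 : ℕ) 55, pd T (n - 1 - l) d * Gd T x0 z th d l := by
  obtain ⟨m, rfl⟩ : ∃ m, n = m + 1 := ⟨n - 1, by omega⟩
  have w := hW T m hT (fun i hi => hV i (by omega))
  have b := base T x0 z th (m + 1)
  have it := iter hR T hT (brest0 T x0 z th) (m + 1) hV L (by omega)
  have key : Wn T (m + 1) = Cn T x0 (m + 1) + (Zn T th (m + 1)).re + zn T z (m + 1)
      + bval T (brest0 T x0 z th) (m + 1)
      + ∑ d ∈ Finset.Icc (1 : ℕ) 55, pd T m d * ((56 - (d : ℝ)) / 56) := by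
    have e : ∑ d ∈ Finset.Icc (1 : ℕ) 55, pd T m d * ((56 - (d : ℝ)) / 56)
        = (∑ d ∈ Finset.Icc (1 : ℕ) 55, (56 - (d : ℝ)) * pd T m d) / 56 := by
      rw [Finset.sum_div]
      exact Finset.sum_congr rfl (fun d _ => by ring)
    rw [b, e]
    linarith
  rw [key, it]
  have e3 : ∀ l ∈ Finset.range L, ∑ d ∈ Finset.Icc (1 : ℕ) 55,
        pd T (m + 1 - 1 - l) d * Gd T x0 z th d l
      = ∑ d ∈ Finset.Icc (1 : ℕ) 55,
        pd T (m + 1 - 1 - l) d * (((badj T)^[l] (brest0 T x0 z th)).r (56 - d)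
          - ((badj T)^[l + 1] (brest0 T x0 z th)).r (56 - d))
        + (if l = 0 then ∑ d ∈ Finset.Icc (1 : ℕ) 55, pd T m d * ((56 - (d : ℝ)) / 56) else 0) := by
    intro l _
    by_cases hl : l = 0
    · subst hl
      rw [if_pos rfl, ← Finset.sum_add_distrib]
      refine Finset.sum_congr rfl (fun d _ => ?_)
      simp only [Gd, brest, if_true, Nat.add_sub_cancel, Nat.sub_zero]
      ring
    · rw [if_neg hl, add_zero]
      refine Finset.sum_congr rfl (fun d _ => ?_)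
      simp only [Gd, brest, if_neg hl, add_zero]
  rw [Finset.sum_congr rfl e3, Finset.sum_add_distrib,
    Finset.sum_ite_eq' (Finset.range L) 0, if_pos (Finset.mem_range.2 hL)]
  simp only [brest]
  ring

theorem wform (hR : RestStepStmt) (hW : WlinStmt) : WformStmt := by
  intro T x0 z th n h1 _ _ hn hV
  exact wformL hR hW T x0 z th n 1200 (T_ne T h1) (by norm_num) hn hV

end SA.H13
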